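import Mathlib

/-!
# Unit balls cut out by finitely many functionals are polytopes
-/

namespace Pool.Agent.R270.Poly

open Set

variable {Y : Type*} [NormedAddCommGroup Y] [NormedSpace ℝ Y]

/-- If, on a finite-dimensional subspace `F`, the unit ball is cut out by finitely many linear
functionals, then it is the convex hull of a finite set. -/
theorem polytope_of_finite (F : Submodule ℝ Y) [FiniteDimensional ℝ F]
    (Φ : Finset (Y →ₗ[ℝ] ℝ)) (h1 : ∀ φ ∈ Φ, ∀ y ∈ F, ‖y‖ ≤ 1 → φ y ≤ 1)
    (h2 : ∀ y ∈ F, (∀ φ ∈ Φ, φ y ≤ 1) → ‖y‖ ≤ 1) :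
    ∃ S : Set Y, S.Finite ∧ {y : Y | y ∈ F ∧ ‖y‖ ≤ 1} = convexHull ℝ S := by
  classical
  set B : Set Y := {y : Y | y ∈ F ∧ ‖y‖ ≤ 1} with hB
  have hBimg : B = Subtype.val '' (Metric.closedBall (0 : F) 1) := by
    ext y
    constructor
    · rintro ⟨hy, hn⟩
      exact ⟨⟨y, hy⟩, by simpa using hn, rfl⟩
    · rintro ⟨⟨z, hz⟩, hn, rfl⟩
      exact ⟨hz, by simpa using hn⟩
  have hcomp : IsCompact B := by
    rw [hBimg]
    haveI : ProperSpace F := FiniteDimensional.proper ℝ F
    exact (isCompact_closedBall (0 : F) 1).image continuous_subtype_val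
  have hconv : Convex ℝ B := by
    intro x hx y hy a b ha hb hab
    refine ⟨F.add_mem (F.smul_mem a hx.1) (F.smul_mem b hy.1), ?_⟩
    have := (convex_closedBall (0 : Y) 1) (by simpa using hx.2) (by simpa using hy.2) ha hb hab
    simpa using this
  set E : Set Y := B.extremePoints ℝ with hE
  have hEfin : E.Finite := by
    refine Set.Finite.of_finite_image (f := fun x => Φ.filter (fun φ => φ x = 1)) ?_ ?_
    · exact (Finset.finite_toSet Φ.powerset).subset (by
        rintro _ ⟨x, _, rfl⟩
        simp only [Finset.coe_powerset, mem_preimage, mem_powerset_iff, Finset.coe_subset]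
        exact Finset.filter_subset _ _)
    · intro x hx y hy hxy
      by_contra hne
      have hxB : x ∈ B := hx.1
      have hyB : y ∈ B := hy.1
      have hxy' : ∀ φ ∈ Φ, φ x = 1 ↔ φ y = 1 := by
        intro φ hφ
        have : φ ∈ Φ.filter (fun φ => φ x = 1) ↔ φ ∈ Φ.filter (fun φ => φ y = 1) := by
          rw [show Φ.filter (fun φ => φ x = 1) = Φ.filter (fun φ => φ y = 1) from hxy]
        simpa [hφ] using this
      -- a uniform ε
      have hev : ∀ φ ∈ Φ, ∀ᶠ ε : ℝ in nhds 0, φ x + ε * φ (x - y) ≤ 1 ∧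
          φ x - ε * φ (x - y) ≤ 1 := by
        intro φ hφ
        by_cases ha : φ x = 1
        · have hb : φ y = 1 := (hxy' φ hφ).1 ha
          have : φ (x - y) = 0 := by rw [map_sub, ha, hb, sub_self]
          exact Filter.Eventually.of_forall fun ε => by rw [this, ha]; simp
        · have hlt : φ x < 1 := lt_of_le_of_ne (h1 φ hφ x hxB.1 hxB.2) ha
          have c1 : ContinuousAt (fun ε : ℝ => φ x + ε * φ (x - y)) 0 := by fun_prop
          have c2 : ContinuousAt (fun ε : ℝ => φ x - ε * φ (x - y)) 0 := by fun_prop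
          have e1 := c1.eventually_lt continuousAt_const (by simpa using hlt)
          have e2 := c2.eventually_lt continuousAt_const (by simpa using hlt)
          filter_upwards [e1, e2] with ε h3 h4
          exact ⟨h3.le, h4.le⟩
      have hall := (Finset.eventually_all Φ).2 hev
      have hall' := hall.filter_mono (nhdsWithin_le_nhds (s := Ioi (0 : ℝ)))
      obtain ⟨ε, hε, hε0⟩ := (hall'.and self_mem_nhdsWithin).exists
      have hε0' : 0 < ε := hε0
      have hm1 : x + ε • (x - y) ∈ B := by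
        refine ⟨F.add_mem hxB.1 (F.smul_mem _ (F.sub_mem hxB.1 hyB.1)), ?_⟩
        apply h2 _ (F.add_mem hxB.1 (F.smul_mem _ (F.sub_mem hxB.1 hyB.1)))
        intro φ hφ
        rw [map_add, map_smul, smul_eq_mul]
        exact (hε φ hφ).1
      have hm2 : x - ε • (x - y) ∈ B := by
        refine ⟨F.sub_mem hxB.1 (F.smul_mem _ (F.sub_mem hxB.1 hyB.1)), ?_⟩
        apply h2 _ (F.sub_mem hxB.1 (F.smul_mem _ (F.sub_mem hxB.1 hyB.1)))
        intro φ hφ
        rw [map_sub, map_smul, smul_eq_mul]
        exact (hε φ hφ).2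
      have hseg : x ∈ openSegment ℝ (x + ε • (x - y)) (x - ε • (x - y)) :=
        ⟨1 / 2, 1 / 2, by norm_num, by norm_num, by norm_num, by module⟩
      have h3 := hx.2 hm1 hm2 hseg
      have h4 : ε • (x - y) = 0 := by simpa using h3
      rcases smul_eq_zero.1 h4 with h5 | h5
      · exact hε0'.ne' h5
      · exact hne (sub_eq_zero.1 h5)
  refine ⟨E, hEfin, ?_⟩
  have hKM := closure_convexHull_extremePoints hcomp hconv
  rw [← hE] at hKM
  rw [← hKM]
  exact (hEfin.isClosed_convexHull ℝ).closure_eq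

end Pool.Agent.R270.Poly
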