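import Pool.Agent.R270.Poly.Space

/-!
# Finite-dimensional sections
-/

namespace Pool.Agent.R270.Poly

open Set Filter Topology
open scoped ENNReal

noncomputable section

theorem Q_congr {t t' : ℕ → Bool} {k : ℕ} (ht : ∀ j < k, t' j = t j) {v : C0}
    (hQ : Q t k v) : Q t' k v := by
  have e1 : h t' k = h t k := by
    unfold h
    congr 1
    exact Finset.sum_congr rfl fun j hj => by rw [ht j (Finset.mem_range.1 hj)]
  refine ⟨by rw [e1]; exact hQ.1, fun i hi => ?_⟩
  have e2 : ψ t' i = ψ t i := by unfold ψ; rw [ht i hi]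
  rw [e1, e2]; exact hQ.2 i hi

theorem eq_smul_x {t : ℕ → Bool} {w : C0} (hw : ∀ i, ψ t i w = 0) : w = w 0 • x t := by
  ext n
  cases n with
  | zero => simp
  | succ j =>
    have := hw j
    rw [ψ_apply] at this
    rw [ZeroAtInftyContinuousMap.smul_apply, x_succ, smul_eq_mul]
    linarith

theorem mem_sph (F0 : Submodule ℝ C0) (u : F0) :
    u ∈ Metric.sphere (0 : F0) 1 ↔ ‖(u : C0)‖ = 1 := by
  rw [Metric.mem_sphere]
  show dist (u : C0) (0 : C0) = 1 ↔ _
  rw [dist_zero_right]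

theorem exists_K (F : Submodule ℝ C0) [FiniteDimensional ℝ F] (t : ℕ → Bool) :
    ∃ K : ℕ, ∀ v ∈ F, ∃ (α : ℝ) (w : C0), v = α • x t + w ∧
      ∃ i₀ < K, 9 / ((K : ℝ) + 1) * ‖w‖ ≤ |ψ t i₀ w| := by
  classical
  -- the complement
  obtain ⟨F0, hfd, hker, hdec⟩ : ∃ F0 : Submodule ℝ C0, FiniteDimensional ℝ F0 ∧
      (∀ w ∈ F0, (∀ i, ψ t i w = 0) → w = 0) ∧
      ∀ v ∈ F, ∃ α : ℝ, ∃ w ∈ F0, v = α • x t + w := by
    by_cases hx : x t ∈ F
    · refine ⟨F ⊓ LinearMap.ker (ev 0).toLinearMap, ?_, ?_, ?_⟩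
      · exact Submodule.finiteDimensional_inf_left F _
      · rintro w ⟨_, hw0⟩ hw
        have h0 : w 0 = 0 := hw0
        have := eq_smul_x hw
        rw [h0, zero_smul] at this
        exact this
      · intro v hv
        refine ⟨v 0, v - v 0 • x t, ⟨F.sub_mem hv (F.smul_mem _ hx), ?_⟩, by abel⟩
        show (v - v 0 • x t) 0 = 0
        rw [ZeroAtInftyContinuousMap.sub_apply, ZeroAtInftyContinuousMap.smul_apply, x_zero]
        simp
    · refine ⟨F, inferInstance, ?_, fun v hv => ⟨0, v, hv, by simp⟩⟩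
      intro w hw hψ
      have h1 := eq_smul_x hψ
      by_cases h0 : w 0 = 0
      · rw [h0, zero_smul] at h1; exact h1
      · exfalso
        apply hx
        have : x t = (w 0)⁻¹ • w := by
          conv_rhs => rw [h1]
          rw [smul_smul, ZeroAtInftyContinuousMap.smul_apply, x_zero]
          simp [h0]
        rw [this]
        exact F.smul_mem _ hw
  haveI := hfd
  haveI : ProperSpace F0 := FiniteDimensional.proper ℝ F0
  set U : ℕ → Set F0 := fun K => {w | ∃ i < K, 9 / ((K : ℝ) + 1) < |ψ t i w|} with hU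
  have hUo : ∀ K, IsOpen (U K) := by
    intro K
    have : U K = ⋃ i ∈ Finset.range K, {w : F0 | 9 / ((K : ℝ) + 1) < |ψ t i w|} := by
      ext w; simp [hU]
    rw [this]
    refine isOpen_biUnion fun i _ => isOpen_lt continuous_const ?_
    exact ((ψ t i).continuous.comp continuous_subtype_val).abs
  have hmono : Monotone U := by
    intro K K' hKK w hw
    obtain ⟨i, hi, hlt⟩ := hw
    refine ⟨i, hi.trans_le hKK, lt_of_le_of_lt ?_ hlt⟩
    apply div_le_div_of_nonneg_left (by norm_num) (by positivity)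
    have : (K : ℝ) ≤ K' := by exact_mod_cast hKK
    linarith
  have hcov : Metric.sphere (0 : F0) 1 ⊆ ⋃ K, U K := by
    intro w hw
    have hw1 : ‖(w : C0)‖ = 1 := (mem_sph F0 w).1 hw
    have hne : ∃ i, ψ t i (w : C0) ≠ 0 := by
      by_contra hcon
      push Not at hcon
      have := hker w w.2 hcon
      rw [this, norm_zero] at hw1
      exact zero_ne_one hw1
    obtain ⟨i, hi⟩ := hne
    have hpos : 0 < |ψ t i (w : C0)| := abs_pos.2 hi
    obtain ⟨n, hn⟩ := exists_nat_gt (9 / |ψ t i (w : C0)|)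
    refine mem_iUnion.2 ⟨max n (i + 1), i, by omega, ?_⟩
    have h1 : (n : ℝ) ≤ ((max n (i + 1) : ℕ) : ℝ) := by exact_mod_cast le_max_left _ _
    rw [div_lt_iff₀ (by positivity)]
    rw [div_lt_iff₀ hpos] at hn
    nlinarith
  obtain ⟨K, hK⟩ := (isCompact_sphere (0 : F0) 1).elim_directed_cover U hUo hcov
    (directed_of_isDirected_le hmono)
  have hK' : Metric.sphere (0 : F0) 1 ⊆ U (max K 1) := hK.trans (hmono (le_max_left _ _))
  refine ⟨max K 1, fun v hv => ?_⟩
  obtain ⟨α, w, hw, rfl⟩ := hdec v hv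
  refine ⟨α, w, rfl, ?_⟩
  by_cases hw0 : w = 0
  · refine ⟨0, by omega, ?_⟩
    rw [hw0]; simp
  · have hn : 0 < ‖w‖ := norm_pos_iff.2 hw0
    set u : F0 := ‖w‖⁻¹ • ⟨w, hw⟩ with hu
    have hu1 : u ∈ Metric.sphere (0 : F0) 1 := by
      rw [mem_sph]
      show ‖‖w‖⁻¹ • w‖ = 1
      rw [norm_smul, norm_inv, norm_norm]
      exact inv_mul_cancel₀ hn.ne'
    obtain ⟨i, hi, hlt⟩ := hK' hu1
    refine ⟨i, hi, ?_⟩
    have e : ψ t i (u : C0) = ‖w‖⁻¹ * ψ t i w := by
      show ψ t i (‖w‖⁻¹ • w) = _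
      rw [map_smul, smul_eq_mul]
    rw [e, abs_mul, abs_inv, abs_norm, lt_inv_mul_iff₀ hn] at hlt
    linarith

/-- the deep constraints on `F` are implied by one constraint -/
theorem exists_deep (F : Submodule ℝ C0) [FiniteDimensional ℝ F] (t : ℕ → Bool) :
    ∃ K : ℕ, ∀ t' : ℕ → Bool, (∀ j < K, t' j = t j) → ∀ k, K ≤ k → ∀ v ∈ F,
      Q t K v → Q t' k v := by
  obtain ⟨K, hK⟩ := exists_K F t
  refine ⟨K, fun t' ht' k hk v hv hQ => ?_⟩
  obtain ⟨α, w, rfl, i₀, hi₀, hle⟩ := hK v hv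
  exact deep_aux hk ht' hi₀ hle hQ

theorem exists_unif (F : Submodule ℝ C0) [FiniteDimensional ℝ F] :
    ∃ K : ℕ, ∀ v ∈ F, (∀ t, ∀ k ≤ K, Q t k v) → ∀ t k, Q t k v := by
  classical
  choose K hK using exists_deep F
  obtain ⟨T, _, hT⟩ := (isCompact_univ : IsCompact (univ : Set (ℕ → Bool))).elim_nhds_subcover
    (fun t => {t' | ∀ j < K t, t' j = t j}) (by
      intro t _
      have : {t' : ℕ → Bool | ∀ j < K t, t' j = t j} =
          ⋂ j ∈ Finset.range (K t), {t' : ℕ → Bool | t' j = t j} := by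
        ext t'; simp
      rw [this]
      refine (Filter.biInter_finset_mem _).2 fun j _ => ?_
      have hc : Continuous (fun t' : ℕ → Bool => t' j) := continuous_apply j
      exact hc.continuousAt.preimage_mem_nhds
        (show ({t j} : Set Bool) ∈ 𝓝 (t j) by simp [nhds_discrete]))
  refine ⟨T.sup K, fun v hv hQ t k => ?_⟩
  by_cases hk : k ≤ T.sup K
  · exact hQ t k hk
  · obtain ⟨s, hs⟩ := mem_iUnion.1 (hT (mem_univ t))
    obtain ⟨hsT, hts⟩ := mem_iUnion.1 hs
    have h1 : K s ≤ T.sup K := Finset.le_sup hsT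
    exact hK s t hts k (by omega) v hv (hQ s (K s) h1)

/-- on `F`, finitely many coordinates give the sup norm -/
theorem exists_coord (F : Submodule ℝ C0) [FiniteDimensional ℝ F] :
    ∃ I : ℕ, ∀ v ∈ F, (∀ i < I, |v i| ≤ 1) → ∀ i, |v i| ≤ 1 := by
  classical
  haveI : ProperSpace F := FiniteDimensional.proper ℝ F
  have htail : ∀ w : F, ∃ I : ℕ, ∀ i ≥ I, |(w : C0) i| < 1 / 4 := by
    intro w
    have h1 : Tendsto (fun i : ℕ => (w : C0) i) atTop (𝓝 0) := by
      have := (w : C0).zero_at_infty'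
      rwa [cocompact_eq_cofinite, Nat.cofinite_eq_atTop] at this
    have h2 := (Metric.tendsto_atTop.1 h1) (1 / 4) (by norm_num)
    obtain ⟨I, hI⟩ := h2
    refine ⟨I, fun i hi => ?_⟩
    have := hI i hi
    rwa [Real.dist_eq, sub_zero] at this
  choose I hI using htail
  obtain ⟨T, _, hT⟩ := (isCompact_sphere (0 : F) 1).elim_nhds_subcover
    (fun w => Metric.ball w (1 / 4)) (fun w _ => Metric.ball_mem_nhds w (by norm_num))
  refine ⟨T.sup I, fun v hv hle => ?_⟩
  by_contra hcon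
  push Not at hcon
  obtain ⟨i, hi⟩ := hcon
  have hn1 : 1 < ‖v‖ := hi.trans_le (abs_coe_le v i)
  have hn : 0 < ‖v‖ := by linarith
  set u : F := ‖v‖⁻¹ • ⟨v, hv⟩ with hu
  have hu1 : u ∈ Metric.sphere (0 : F) 1 := by
    rw [mem_sph]
    show ‖‖v‖⁻¹ • v‖ = 1
    rw [norm_smul, norm_inv, norm_norm]
    exact inv_mul_cancel₀ hn.ne'
  obtain ⟨w, hw⟩ := mem_iUnion.1 (hT hu1)
  obtain ⟨hwT, huw⟩ := mem_iUnion.1 hw
  have hbound : ∀ j, |v j| ≤ max 1 (‖v‖ / 2) := by
    intro j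
    by_cases hj : j < T.sup I
    · exact (hle j hj).trans (le_max_left _ _)
    · refine le_trans ?_ (le_max_right _ _)
      have h1 : |(w : C0) j| < 1 / 4 := hI w j (le_trans (Finset.le_sup hwT) (not_lt.1 hj))
      have h2 : |((u : C0) - (w : C0)) j| ≤ 1 / 4 := by
        refine (abs_coe_le _ j).trans ?_
        have : dist (u : C0) (w : C0) < 1 / 4 := huw
        rw [dist_eq_norm] at this
        exact this.le
      have h3 : (u : C0) j = ‖v‖⁻¹ * v j := rfl
      rw [ZeroAtInftyContinuousMap.sub_apply, h3] at h2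
      have h4 : |‖v‖⁻¹ * v j| ≤ 1 / 2 := by
        have h5 := abs_add_le (‖v‖⁻¹ * v j - (w : C0) j) ((w : C0) j)
        rw [sub_add_cancel] at h5
        linarith
      rw [abs_mul, abs_inv, abs_norm, inv_mul_le_iff₀ hn] at h4
      linarith
  have h6 := norm_le_of v (le_max_of_le_left zero_le_one) hbound
  rcases le_total 1 (‖v‖ / 2) with h7 | h7
  · rw [max_eq_right h7] at h6; linarith
  · rw [max_eq_left h7] at h6; linarith

end

end Pool.Agent.R270.Poly
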