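import Pool.Agent.R270.Poly.Basic
import Pool.Agent.R270.Renorm

/-!
# A polyhedral renorming of `c₀` whose unit ball has a Cantor set of extreme points
-/

namespace Pool.Agent.R270.Poly

open Set Filter Topology
open scoped ENNReal

noncomputable section

/-- the space `c₀` -/
abbrev C0 : Type := ZeroAtInftyContinuousMap ℕ ℝ

/-- quickly decreasing weights -/
def a (k : ℕ) : ℝ := 1 / (2 ^ k * k.factorial)

/-- a null sequence -/
def c (j : ℕ) : ℝ := 1 / ((j : ℝ) + 2)

/-- signs -/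
def sg (b : Bool) : ℝ := if b then 1 else -1

theorem sg_abs (b : Bool) : |sg b| = 1 := by cases b <;> simp [sg]

theorem sg_sq (b : Bool) : sg b * sg b = 1 := by cases b <;> simp [sg]

theorem sg_cases (b : Bool) : sg b = 1 ∨ sg b = -1 := by cases b <;> simp [sg]

theorem a_pos (k : ℕ) : 0 < a k := by unfold a; positivity

theorem a_zero : a 0 = 1 := by simp [a]

theorem a_succ (k : ℕ) : a (k + 1) = a k / (2 * ((k : ℝ) + 1)) := by
  unfold a
  rw [Nat.factorial_succ, pow_succ]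
  push_cast
  field_simp

theorem a_succ_le (k : ℕ) : a (k + 1) ≤ a k / 2 := by
  rw [a_succ]
  have := a_pos k
  apply div_le_div_of_nonneg_left this.le (by norm_num)
  have : (0 : ℝ) ≤ k := Nat.cast_nonneg k
  linarith

theorem a_anti : Antitone a := by
  refine antitone_nat_of_succ_le fun k => ?_
  have := a_succ_le k
  have := a_pos k
  linarith

theorem a_le_one (k : ℕ) : a k ≤ 1 := by
  rw [← a_zero]; exact a_anti (Nat.zero_le k)

theorem c_pos (j : ℕ) : 0 < c j := by unfold c; positivity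

theorem c_le (j : ℕ) : c j ≤ 1 / 2 := by
  unfold c
  apply one_div_le_one_div_of_le (by norm_num)
  have : (0 : ℝ) ≤ j := Nat.cast_nonneg j
  linarith

/-- tail sums of the weights -/
theorem sum_a_le {K k : ℕ} (h : K ≤ k) :
    ∑ j ∈ Finset.Ico K k, a (j + 1) ≤ a K / ((K : ℝ) + 1) := by
  have key : ∑ j ∈ Finset.Ico K k, a (j + 1) ≤ 2 * a (K + 1) - 2 * a (k + 1) := by
    induction k, h using Nat.le_induction with
    | base => simp
    | succ k hk ih =>
      rw [Finset.sum_Ico_succ_top hk]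
      have := a_succ_le (k + 1)
      linarith
  have h1 := a_pos (k + 1)
  have h2 : 2 * a (K + 1) = a K / ((K : ℝ) + 1) := by
    rw [a_succ]; field_simp
  linarith

/-- coordinate functionals -/
def ev (i : ℕ) : C0 →L[ℝ] ℝ :=
  LinearMap.mkContinuous
    { toFun := fun f => f i
      map_add' := fun _ _ => rfl
      map_smul' := fun _ _ => rfl } 1 (fun f => by
        rw [one_mul]
        exact (f.toBCF.norm_coe_le_norm i))

@[simp] theorem ev_apply (i : ℕ) (f : C0) : ev i f = f i := rfl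

theorem abs_coe_le (f : C0) (i : ℕ) : |f i| ≤ ‖f‖ := f.toBCF.norm_coe_le_norm i

theorem norm_le_of (f : C0) {M : ℝ} (hM : 0 ≤ M) (h : ∀ i, |f i| ≤ M) : ‖f‖ ≤ M := by
  have : ‖f.toBCF‖ ≤ M := (BoundedContinuousFunction.norm_le hM).2 h
  exact this

/-- the tree functionals -/
def h (t : ℕ → Bool) (k : ℕ) : C0 →L[ℝ] ℝ :=
  ev 0 + ∑ j ∈ Finset.range k, a (j + 1) • (sg (t j) • ev (j + 1) - c j • ev 0)

/-- the perturbations -/
def ψ (t : ℕ → Bool) (i : ℕ) : C0 →L[ℝ] ℝ := ev (i + 1) - (c i * sg (t i)) • ev 0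

theorem h_apply (t : ℕ → Bool) (k : ℕ) (v : C0) :
    h t k v = v 0 + ∑ j ∈ Finset.range k, a (j + 1) * (sg (t j) * v (j + 1) - c j * v 0) := by
  simp [h, ContinuousLinearMap.sum_apply]

theorem ψ_apply (t : ℕ → Bool) (i : ℕ) (v : C0) :
    ψ t i v = v (i + 1) - c i * sg (t i) * v 0 := by
  simp [ψ]

/-- the index set of the functionals -/
abbrev Ix : Type := ℕ ⊕ ((ℕ → Bool) × ℕ × ℕ × Bool)

/-- all functionals defining the new norm -/
def φ : Ix → StrongDual ℝ C0
  | Sum.inl i => ev i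
  | Sum.inr (t, k, i, b) => if i < k then h t k + (sg b * a k) • ψ t i else h t k

theorem term_le (t : ℕ → Bool) (j : ℕ) (v : C0) :
    |sg (t j) * v (j + 1) - c j * v 0| ≤ 3 / 2 * ‖v‖ := by
  have h1 : |sg (t j) * v (j + 1)| ≤ ‖v‖ := by
    rw [abs_mul, sg_abs, one_mul]; exact abs_coe_le v _
  have h2 : |c j * v 0| ≤ 1 / 2 * ‖v‖ := by
    rw [abs_mul, abs_of_pos (c_pos j)]
    exact mul_le_mul (c_le j) (abs_coe_le v 0) (abs_nonneg _) (by norm_num)
  calc |sg (t j) * v (j + 1) - c j * v 0| ≤ |sg (t j) * v (j + 1)| + |c j * v 0| := abs_sub _ _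
    _ ≤ 3 / 2 * ‖v‖ := by linarith

theorem ψ_le (t : ℕ → Bool) (i : ℕ) (v : C0) : |ψ t i v| ≤ 3 / 2 * ‖v‖ := by
  have := term_le t i v
  have e : sg (t i) * ψ t i v = sg (t i) * v (i + 1) - c i * v 0 := by
    rw [ψ_apply]
    have := sg_sq (t i)
    linear_combination (-(c i * v 0)) * this
  rw [← e, abs_mul, sg_abs, one_mul] at this
  exact this

theorem diff_le {t t' : ℕ → Bool} {K k : ℕ} (hK : K ≤ k) (ht : ∀ j < K, t' j = t j) (v : C0) :
    |h t' k v - h t K v| ≤ 3 / 2 * (a K / ((K : ℝ) + 1)) * ‖v‖ := by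
  have e : h t' k v - h t K v =
      ∑ j ∈ Finset.Ico K k, a (j + 1) * (sg (t' j) * v (j + 1) - c j * v 0) := by
    rw [h_apply, h_apply, Finset.range_eq_Ico, Finset.range_eq_Ico,
      ← Finset.sum_Ico_consecutive _ (Nat.zero_le K) hK]
    have : ∑ j ∈ Finset.Ico 0 K, a (j + 1) * (sg (t' j) * v (j + 1) - c j * v 0) =
        ∑ j ∈ Finset.Ico 0 K, a (j + 1) * (sg (t j) * v (j + 1) - c j * v 0) := by
      refine Finset.sum_congr rfl fun j hj => ?_
      rw [ht j (Finset.mem_Ico.1 hj).2]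
    rw [this]; ring
  rw [e]
  calc |∑ j ∈ Finset.Ico K k, a (j + 1) * (sg (t' j) * v (j + 1) - c j * v 0)|
      ≤ ∑ j ∈ Finset.Ico K k, |a (j + 1) * (sg (t' j) * v (j + 1) - c j * v 0)| :=
        Finset.abs_sum_le_sum_abs _ _
    _ ≤ ∑ j ∈ Finset.Ico K k, a (j + 1) * (3 / 2 * ‖v‖) := by
        refine Finset.sum_le_sum fun j _ => ?_
        rw [abs_mul, abs_of_pos (a_pos _)]
        exact mul_le_mul_of_nonneg_left (term_le t' j v) (a_pos _).le
    _ = (∑ j ∈ Finset.Ico K k, a (j + 1)) * (3 / 2 * ‖v‖) := by rw [Finset.sum_mul]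
    _ ≤ a K / ((K : ℝ) + 1) * (3 / 2 * ‖v‖) :=
        mul_le_mul_of_nonneg_right (sum_a_le hK) (by positivity)
    _ = _ := by ring

theorem h_le (t : ℕ → Bool) (k : ℕ) (v : C0) : |h t k v| ≤ 3 * ‖v‖ := by
  have h1 := diff_le (t := t) (t' := t) (Nat.zero_le k) (fun j _ => rfl) v
  have h2 : h t 0 v = v 0 := by simp [h_apply]
  rw [h2, a_zero] at h1
  have h3 := abs_coe_le v 0
  have h4 : |h t k v| ≤ |h t k v - v 0| + |v 0| := by
    have := abs_add_le (h t k v - v 0) (v 0)
    simpa using this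
  norm_num at h1
  linarith [norm_nonneg v]

theorem φ_le (i : Ix) (v : C0) : ‖φ i v‖ ≤ 5 * ‖v‖ := by
  rw [Real.norm_eq_abs]
  rcases i with i | ⟨t, k, i, b⟩
  · show |v i| ≤ _
    have := abs_coe_le v i
    linarith [norm_nonneg v]
  · show |(if i < k then h t k + (sg b * a k) • ψ t i else h t k) v| ≤ _
    split_ifs
    · rw [ContinuousLinearMap.add_apply, ContinuousLinearMap.smul_apply, smul_eq_mul]
      have h1 := h_le t k v
      have h2 : |sg b * a k * ψ t i v| ≤ 3 / 2 * ‖v‖ := by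
        rw [abs_mul, abs_mul, sg_abs, one_mul, abs_of_pos (a_pos k)]
        calc a k * |ψ t i v| ≤ 1 * (3 / 2 * ‖v‖) :=
              mul_le_mul (a_le_one k) (ψ_le t i v) (abs_nonneg _) zero_le_one
          _ = _ := one_mul _
      calc |h t k v + sg b * a k * ψ t i v| ≤ |h t k v| + |sg b * a k * ψ t i v| := abs_add_le _ _
        _ ≤ _ := by linarith [norm_nonneg v]
    · have := h_le t k v
      linarith [norm_nonneg v]

/-- the extreme points, as elements of `c₀` -/
def x (t : ℕ → Bool) : C0 where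
  toFun := fun n => Nat.casesOn n 1 (fun j => c j * sg (t j))
  continuous_toFun := continuous_of_discreteTopology
  zero_at_infty' := by
    rw [cocompact_eq_cofinite, Nat.cofinite_eq_atTop, ← tendsto_add_atTop_iff_nat 1]
    show Tendsto (fun j : ℕ => c j * sg (t j)) atTop (𝓝 0)
    have h1 : Tendsto c atTop (𝓝 0) := by
      have h2 : Tendsto (fun n : ℕ => 1 / ((n : ℝ) + 1)) atTop (𝓝 0) :=
        tendsto_one_div_add_atTop_nhds_zero_nat
      have h3 := h2.comp (tendsto_add_atTop_nat 1)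
      refine h3.congr fun n => ?_
      simp only [Function.comp, c]
      push_cast
      ring_nf
    refine squeeze_zero_norm (fun j => ?_) h1
    rw [Real.norm_eq_abs, abs_mul, sg_abs, mul_one, abs_of_pos (c_pos j)]

@[simp] theorem x_zero (t : ℕ → Bool) : x t 0 = 1 := rfl

@[simp] theorem x_succ (t : ℕ → Bool) (j : ℕ) : x t (j + 1) = c j * sg (t j) := rfl

theorem ψ_x (t t' : ℕ → Bool) (i : ℕ) : ψ t i (x t') = c i * (sg (t' i) - sg (t i)) := by
  rw [ψ_apply, x_succ, x_zero]; ring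

theorem ψ_x_self (t : ℕ → Bool) (i : ℕ) : ψ t i (x t) = 0 := by rw [ψ_x]; ring

theorem h_x (t t' : ℕ → Bool) (k : ℕ) :
    1 - h t k (x t') = ∑ j ∈ Finset.range k, a (j + 1) * c j * (1 - sg (t j) * sg (t' j)) := by
  rw [h_apply, x_zero, sub_add_cancel_left, ← Finset.sum_neg_distrib]
  refine Finset.sum_congr rfl fun j _ => ?_
  rw [x_succ]; ring

theorem h_x_self (t : ℕ → Bool) (k : ℕ) : h t k (x t) = 1 := by
  have := h_x t t k
  rw [Finset.sum_eq_zero (fun j _ => by rw [sg_sq]; ring)] at this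
  linarith

theorem sg_prod (b b' : Bool) : 0 ≤ 1 - sg b * sg b' ∧ 1 - sg b * sg b' ≤ 2 := by
  cases b <;> cases b' <;> simp [sg] <;> norm_num

theorem h_x_le (t t' : ℕ → Bool) (k : ℕ) : h t k (x t') ≤ 1 := by
  have := h_x t t' k
  have h2 : 0 ≤ ∑ j ∈ Finset.range k, a (j + 1) * c j * (1 - sg (t j) * sg (t' j)) :=
    Finset.sum_nonneg fun j _ => mul_nonneg (mul_pos (a_pos _) (c_pos _)).le (sg_prod _ _).1
  linarith

theorem one_sub_h_x_le {t t' : ℕ → Bool} {K k : ℕ} (hK : K ≤ k) (ht : ∀ j < K, t' j = t j) :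
    1 - h t' k (x t) ≤ a K / ((K : ℝ) + 1) := by
  rw [h_x, Finset.range_eq_Ico, ← Finset.sum_Ico_consecutive _ (Nat.zero_le K) hK]
  have h1 : ∑ j ∈ Finset.Ico 0 K, a (j + 1) * c j * (1 - sg (t' j) * sg (t j)) = 0 := by
    refine Finset.sum_eq_zero fun j hj => ?_
    rw [ht j (Finset.mem_Ico.1 hj).2, sg_sq]; ring
  rw [h1, zero_add]
  refine le_trans (Finset.sum_le_sum fun j _ => ?_) (sum_a_le hK)
  have h2 := sg_prod (t' j) (t j)
  have h3 := c_le j
  have h4 := a_pos (j + 1)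
  have h5 := c_pos j
  have h6 : c j * (1 - sg (t' j) * sg (t j)) ≤ 1 := by nlinarith
  calc a (j + 1) * c j * (1 - sg (t' j) * sg (t j)) =
        a (j + 1) * (c j * (1 - sg (t' j) * sg (t j))) := by ring
    _ ≤ a (j + 1) * 1 := mul_le_mul_of_nonneg_left h6 h4.le
    _ = _ := mul_one _

theorem h_x_nonneg (t t' : ℕ → Bool) (k : ℕ) : 0 ≤ h t k (x t') := by
  have := one_sub_h_x_le (t := t') (t' := t) (Nat.zero_le k) (fun j hj => absurd hj (by omega))
  rw [a_zero] at this
  norm_num at this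
  linarith

theorem a_ψ_x_le (t t' : ℕ → Bool) {i k : ℕ} (hi : i < k) :
    a k * |ψ t i (x t')| ≤ 1 - h t k (x t') := by
  rw [ψ_x, h_x]
  have h1 : a (i + 1) * c i * (1 - sg (t i) * sg (t' i)) ≤
      ∑ j ∈ Finset.range k, a (j + 1) * c j * (1 - sg (t j) * sg (t' j)) :=
    Finset.single_le_sum (f := fun j => a (j + 1) * c j * (1 - sg (t j) * sg (t' j)))
      (fun j _ => mul_nonneg (mul_pos (a_pos _) (c_pos _)).le (sg_prod _ _).1)
      (Finset.mem_range.2 hi)
  refine le_trans ?_ h1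
  have h2 : |sg (t' i) - sg (t i)| = 1 - sg (t i) * sg (t' i) := by
    generalize t i = b
    generalize t' i = b'
    cases b <;> cases b' <;> simp [sg] <;> norm_num
  rw [abs_mul, abs_of_pos (c_pos i), h2]
  have h3 : a k ≤ a (i + 1) := a_anti hi
  have h4 := (sg_prod (t i) (t' i)).1
  have h5 := c_pos i
  calc a k * (c i * (1 - sg (t i) * sg (t' i))) ≤ a (i + 1) * (c i * (1 - sg (t i) * sg (t' i))) :=
        mul_le_mul_of_nonneg_right h3 (mul_nonneg h5.le h4)
    _ = _ := by ring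

/-- the constraint at the node `t|k` -/
def Q (t : ℕ → Bool) (k : ℕ) (v : C0) : Prop :=
  |h t k v| ≤ 1 ∧ ∀ i < k, |h t k v| + a k * |ψ t i v| ≤ 1

/-- The deep constraints are implied by the constraint at a suitable node. -/
theorem deep_aux {t t' : ℕ → Bool} {K k : ℕ} (hk : K ≤ k) (ht : ∀ j < K, t' j = t j)
    {α : ℝ} {w : C0} {i₀ : ℕ} (hi₀ : i₀ < K) (hw : 9 / ((K : ℝ) + 1) * ‖w‖ ≤ |ψ t i₀ w|)
    (hQ : Q t K (α • x t + w)) : Q t' k (α • x t + w) := by
  rcases hk.eq_or_lt with rfl | hlt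
  · -- same node
    have e1 : h t' K = h t K := by
      unfold h
      congr 1
      exact Finset.sum_congr rfl fun j hj => by rw [ht j (Finset.mem_range.1 hj)]
    refine ⟨by rw [e1]; exact hQ.1, fun i hi => ?_⟩
    have e2 : ψ t' i = ψ t i := by unfold ψ; rw [ht i hi]
    rw [e1, e2]; exact hQ.2 i hi
  set N := ‖w‖ with hN
  have hN0 : 0 ≤ N := norm_nonneg w
  set r := a K / ((K : ℝ) + 1) with hr
  have hr0 : 0 ≤ r := div_nonneg (a_pos K).le (by positivity)
  set s := α + h t K w with hs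
  have hsrc : |s| ≤ 1 - 9 * r * N := by
    have h1 := hQ.2 i₀ hi₀
    rw [map_add, map_smul, h_x_self, smul_eq_mul, mul_one, map_add, map_smul, ψ_x_self,
      smul_zero, zero_add] at h1
    have h2 : a K * (9 / ((K : ℝ) + 1) * N) ≤ a K * |ψ t i₀ w| :=
      mul_le_mul_of_nonneg_left hw (a_pos K).le
    have h3 : a K * (9 / ((K : ℝ) + 1) * N) = 9 * r * N := by rw [hr]; ring
    rw [h3] at h2
    linarith
  set b := h t' k (x t) with hb
  have hb1 : b ≤ 1 := h_x_le t' t k
  have hb0 : 0 ≤ b := h_x_nonneg t' t k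
  have hbr : 1 - b ≤ r := one_sub_h_x_le hk ht
  have hd : |h t' k w - h t K w| ≤ 3 / 2 * r * N := diff_le hk ht w
  have hhw : |h t K w| ≤ 3 * N := h_le t K w
  have hval : h t' k (α • x t + w) = b * s + (h t' k w - h t K w) + (1 - b) * h t K w := by
    rw [map_add, map_smul, smul_eq_mul, ← hb, hs]; ring
  have hA : |h t' k (α • x t + w)| ≤ b * |s| + 3 / 2 * r * N + (1 - b) * (3 * N) := by
    rw [hval]
    calc |b * s + (h t' k w - h t K w) + (1 - b) * h t K w|
        ≤ |b * s| + |h t' k w - h t K w| + |(1 - b) * h t K w| := by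
          refine (abs_add_le _ _).trans (add_le_add ?_ le_rfl)
          exact abs_add_le _ _
      _ ≤ _ := by
          rw [abs_mul, abs_of_nonneg hb0, abs_mul, abs_of_nonneg (by linarith : 0 ≤ 1 - b)]
          have := mul_le_mul_of_nonneg_left hhw (by linarith : 0 ≤ 1 - b)
          linarith
  have hα : |α| ≤ |s| + 3 * N := by
    have : α = s - h t K w := by rw [hs]; ring
    rw [this]
    exact (abs_sub _ _).trans (by linarith)
  have h1b : (1 - b) * (3 * N) ≤ r * (3 * N) := mul_le_mul_of_nonneg_right hbr (by positivity)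
  have hrN : 0 ≤ r * N := mul_nonneg hr0 hN0
  have hs0 : 0 ≤ |s| := abs_nonneg s
  refine ⟨?_, fun i hi => ?_⟩
  · have : b * |s| ≤ |s| := by nlinarith
    nlinarith
  · have hψ : a k * |ψ t' i (α • x t + w)| ≤ |α| * (1 - b) + r * N := by
      rw [map_add, map_smul, smul_eq_mul]
      have h1 := a_ψ_x_le t' t hi
      have h2 := ψ_le t' i w
      have h3 : a k ≤ r / 2 := by
        have : a k ≤ a (K + 1) := a_anti hlt
        rw [a_succ] at this
        refine this.trans (le_of_eq ?_)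
        rw [hr]; field_simp
      calc a k * |α * ψ t' i (x t) + ψ t' i w|
          ≤ a k * (|α| * |ψ t' i (x t)| + |ψ t' i w|) := by
            refine mul_le_mul_of_nonneg_left ?_ (a_pos k).le
            rw [← abs_mul]; exact abs_add_le _ _
        _ = |α| * (a k * |ψ t' i (x t)|) + a k * |ψ t' i w| := by ring
        _ ≤ |α| * (1 - b) + r / 2 * (3 / 2 * N) := by
            refine add_le_add (mul_le_mul_of_nonneg_left h1 (abs_nonneg _)) ?_
            exact mul_le_mul h3 h2 (abs_nonneg _) (by linarith)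
        _ ≤ _ := by nlinarith
    have h4 : |α| * (1 - b) ≤ (|s| + 3 * N) * (1 - b) :=
      mul_le_mul_of_nonneg_right hα (by linarith)
    have h5 : (|s| + 3 * N) * (1 - b) = |s| - b * |s| + (1 - b) * (3 * N) := by ring
    linarith

end

end Pool.Agent.R270.Poly
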